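import Mathlib

namespace Pool.Agent.Results.MP_76d2cf_co.Tri

open Finset

def P : Set (ℝ × ℝ) := convexHull ℝ {(-2, 0), (2, 0), (1, 1 / 2)}

def H : Set (ℝ × ℝ) := {z | z.1 = 2 * z.2}

noncomputable def E (S : Set (ℝ × ℝ)) (t : ℕ) : ℕ :=
  {z : ℤ × ℤ | ((z.1 : ℝ) / t, (z.2 : ℝ) / t) ∈ S}.ncard

theorem P_eq : P = {z | 0 ≤ z.2 ∧ z.1 + 2 * z.2 ≤ 2 ∧ -2 ≤ z.1 - 6 * z.2} := by
  apply Set.Subset.antisymm
  · apply convexHull_min
    · rintro z (rfl | rfl | rfl) <;> norm_num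
    · rintro x ⟨a1, a2, a3⟩ y ⟨b1, b2, b3⟩ a b ha hb hab
      simp only [Set.mem_ofPred_eq, Prod.fst_add, Prod.snd_add, Prod.smul_fst, Prod.smul_snd,
        smul_eq_mul]
      refine ⟨by positivity, ?_, ?_⟩
      · nlinarith [mul_le_mul_of_nonneg_left a2 ha, mul_le_mul_of_nonneg_left b2 hb]
      · nlinarith [mul_le_mul_of_nonneg_left a3 ha, mul_le_mul_of_nonneg_left b3 hb]
  · rintro ⟨x, y⟩ ⟨a1, a2, a3⟩
    simp only at a1 a2 a3
    have hc := convex_convexHull ℝ ({(-2, 0), (2, 0), (1, 1 / 2)} : Set (ℝ × ℝ))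
    have := hc.sum_mem (t := (univ : Finset (Fin 3)))
      (w := ![(2 - x - 2 * y) / 4, (x - 6 * y + 2) / 4, 2 * y])
      (z := ![(-2, 0), (2, 0), (1, 1 / 2)])
      (fun i _ => by fin_cases i <;> simp <;> linarith)
      (by simp [Fin.sum_univ_three]; ring)
      (fun i _ => subset_convexHull ℝ _ (by fin_cases i <;> simp))
    unfold P
    convert this using 1
    simp [Fin.sum_univ_three]
    constructor <;> ring

theorem int_eq : interior P = {z | 0 < z.2 ∧ z.1 + 2 * z.2 < 2 ∧ -2 < z.1 - 6 * z.2} := by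
  apply Set.Subset.antisymm
  · rintro ⟨x, y⟩ h
    obtain ⟨e, he, hb⟩ := Metric.mem_nhds_iff.1 (mem_interior_iff_mem_nhds.1 h)
    rw [P_eq] at hb
    have h1 := @hb (x, y - e / 2) (by
      simp [Prod.dist_eq, abs_of_pos he, he])
    have h2 := @hb (x + e / 2, y) (by
      simp [Prod.dist_eq, abs_of_pos he, he])
    have h3 := @hb (x - e / 2, y) (by
      simp [Prod.dist_eq, abs_of_pos he, he])
    simp only [Set.mem_ofPred_eq] at h1 h2 h3 ⊢
    exact ⟨by linarith [h1.1], by linarith [h2.2.1], by linarith [h3.2.2]⟩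
  · apply interior_maximal
    · rw [P_eq]
      rintro z ⟨a, b, c⟩
      exact ⟨a.le, b.le, c.le⟩
    · have a : Continuous fun z : ℝ × ℝ => z.1 + 2 * z.2 := by fun_prop
      have b : Continuous fun z : ℝ × ℝ => z.1 - 6 * z.2 := by fun_prop
      exact (isOpen_lt continuous_const continuous_snd).inter
        ((isOpen_lt a continuous_const).inter (isOpen_lt continuous_const b))

theorem count (m : ℕ) (F : ℕ → Finset ℤ) (S : Set (ℤ × ℤ))
    (h : ∀ z, z ∈ S ↔ ∃ i < m, z.2 = (i : ℤ) + 1 ∧ z.1 ∈ F i) :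
    S.ncard = ∑ i ∈ range m, (F i).card := by
  have : S = ↑((range m).biUnion fun i => (F i).image fun a => (a, (i : ℤ) + 1)) := by
    ext ⟨a, b⟩
    simp only [h, coe_biUnion, coe_range, Set.mem_iUnion, Set.mem_Iio, coe_image, Set.mem_image,
      mem_coe, Prod.mk.injEq]
    constructor
    · rintro ⟨i, hi, rfl, ha⟩
      exact ⟨i, hi, a, ha, rfl, rfl⟩
    · rintro ⟨i, hi, a, ha, rfl, rfl⟩
      exact ⟨i, hi, rfl, ha⟩
  rw [this, Set.ncard_coe_finset, card_biUnion]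
  · exact sum_congr rfl fun i _ => card_image_of_injective _ fun a b e => congrArg Prod.fst e
  · intro i _ j _ hij
    rw [Function.onFun, disjoint_left]
    intro z h1 h2
    obtain ⟨a, -, rfl⟩ := mem_image.1 h1
    obtain ⟨b, -, e⟩ := mem_image.1 h2
    have := congrArg Prod.snd e
    simp only at this
    omega

theorem mem_int (t : ℕ) (ht : 0 < t) (z : ℤ × ℤ) :
    ((z.1 : ℝ) / t, (z.2 : ℝ) / t) ∈ interior P ↔
      0 < z.2 ∧ z.1 + 2 * z.2 < 2 * t ∧ -2 * t < z.1 - 6 * z.2 := by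
  have h : (0 : ℝ) < t := by exact_mod_cast ht
  rw [int_eq]
  simp only [Set.mem_ofPred_eq]
  rw [← mul_div_assoc, ← mul_div_assoc, ← add_div, ← sub_div, div_lt_iff₀ h, lt_div_iff₀ h,
    lt_div_iff₀ h, zero_mul]
  norm_cast

theorem mem_H (t : ℕ) (ht : 0 < t) (z : ℤ × ℤ) :
    ((z.1 : ℝ) / t, (z.2 : ℝ) / t) ∈ H ↔ z.1 = 2 * z.2 := by
  have h : (t : ℝ) ≠ 0 := by exact_mod_cast ht.ne'
  simp only [H, Set.mem_ofPred_eq]
  rw [← mul_div_assoc, div_left_inj' h]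
  norm_cast

theorem sumf (m : ℕ) (a : ℚ) :
    ∑ i ∈ range m, (a - 8 * (i : ℚ)) = m * a - 4 * m * (m - 1) := by
  induction m with
  | zero => simp
  | succ m ih => rw [sum_range_succ, ih]; push_cast; ring

theorem Ew (t : ℕ) (ht : 0 < t) :
    (E (interior P) t : ℚ) = ((t - 1) / 2 : ℕ) * (4 * t - 9 : ℚ) -
      4 * ((t - 1) / 2 : ℕ) * (((t - 1) / 2 : ℕ) - 1 : ℚ) := by
  rw [← sumf, E, count ((t - 1) / 2) (fun i => Ioo (6 * (i + 1) - 2 * t : ℤ) (2 * t - 2 * (i + 1)))]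
  · push_cast
    refine sum_congr rfl fun i hi => ?_
    rw [mem_range] at hi
    have : ((Ioo (6 * (i + 1) - 2 * t : ℤ) (2 * t - 2 * (i + 1))).card : ℤ) = 4 * t - 9 - 8 * i := by
      rw [Int.card_Ioo]; omega
    exact_mod_cast this
  · intro z
    rw [Set.mem_ofPred_eq, mem_int t ht]
    simp only [mem_Ioo]
    constructor
    · rintro ⟨a, b, c⟩
      exact ⟨(z.2 - 1).toNat, by omega, by omega, by omega, by omega⟩
    · rintro ⟨i, a, b, c, d⟩
      omega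

theorem Eo (t : ℕ) (ht : 0 < t) :
    (E (interior P \ H) t : ℚ) = ((t - 1) / 2 : ℕ) * (4 * t - 10 : ℚ) -
      4 * ((t - 1) / 2 : ℕ) * (((t - 1) / 2 : ℕ) - 1 : ℚ) := by
  rw [← sumf, E, count ((t - 1) / 2)
    (fun i => (Ioo (6 * (i + 1) - 2 * t : ℤ) (2 * t - 2 * (i + 1))).erase (2 * (i + 1)))]
  · push_cast
    refine sum_congr rfl fun i hi => ?_
    rw [mem_range] at hi
    have : (((Ioo (6 * (i + 1) - 2 * t : ℤ) (2 * t - 2 * (i + 1))).erase (2 * (i + 1))).card : ℤ) =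
        4 * t - 10 - 8 * i := by
      rw [card_erase_of_mem (by rw [mem_Ioo]; omega), Int.card_Ioo]; omega
    exact_mod_cast this
  · intro z
    rw [Set.mem_ofPred_eq, Set.mem_sdiff, mem_int t ht, mem_H t ht]
    simp only [mem_Ioo, mem_erase]
    constructor
    · rintro ⟨⟨a, b, c⟩, d⟩
      exact ⟨(z.2 - 1).toNat, by omega, by omega, by omega, by omega, by omega⟩
    · rintro ⟨i, a, b, c, d, e⟩
      omega

theorem one_least (a : ℚ) : IsLeast {q | 0 < q ∧ Function.Periodic (fun _ : ℕ => a) q} 1 :=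
  ⟨⟨one_pos, fun _ => rfl⟩, fun _ h => h.1⟩

theorem result : (interior P).Nonempty ∧ ¬ P ⊆ H ∧ (H ∩ interior P).Nonempty ∧
    ∃ (c cw : Fin 3 → ℕ → ℚ) (p pw : Fin 3 → ℕ),
      (∀ t, 1 ≤ t → (E (interior P \ H) t : ℚ) = ∑ k, c k t * (t : ℚ) ^ (k : ℕ)) ∧
      (∀ t, 1 ≤ t → (E (interior P) t : ℚ) = ∑ k, cw k t * (t : ℚ) ^ (k : ℕ)) ∧
      (∀ k, IsLeast {q | 0 < q ∧ Function.Periodic (c k) q} (p k)) ∧
      (∀ k, IsLeast {q | 0 < q ∧ Function.Periodic (cw k) q} (pw k)) ∧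
      ¬ p 1 * pw 0 ∣ p 0 * pw 1 := by
  have m : ((1 / 2, 1 / 4) : ℝ × ℝ) ∈ interior P := by rw [int_eq]; norm_num
  refine ⟨⟨_, m⟩, fun h => ?_, ⟨_, by norm_num [H], m⟩,
    ![fun _ => 2, fun _ => -3, fun _ => 1],
    ![fun t => if t % 2 = 0 then 1 else 3 / 2, fun _ => -5 / 2, fun _ => 1],
    ![1, 1, 1], ![2, 1, 1], fun t ht => ?_, fun t ht => ?_, fun k => ?_, fun k => ?_, by decide⟩
  · have := @h (2, 0) (by rw [P_eq]; norm_num)
    norm_num [H] at this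
  · rw [Eo t ht]
    rcases Nat.even_or_odd' t with ⟨s, rfl | rfl⟩
    · obtain ⟨s, rfl⟩ : ∃ u, s = u + 1 := ⟨s - 1, by omega⟩
      rw [show (2 * (s + 1) - 1) / 2 = s by omega]
      simp [Fin.sum_univ_three]; ring
    · rw [show (2 * s + 1 - 1) / 2 = s by omega]
      simp [Fin.sum_univ_three]; ring
  · rw [Ew t ht]
    rcases Nat.even_or_odd' t with ⟨s, rfl | rfl⟩
    · obtain ⟨s, rfl⟩ : ∃ u, s = u + 1 := ⟨s - 1, by omega⟩
      rw [show (2 * (s + 1) - 1) / 2 = s by omega]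
      simp [Fin.sum_univ_three]; ring
    · rw [show (2 * s + 1 - 1) / 2 = s by omega]
      simp [Fin.sum_univ_three]; ring
  · fin_cases k <;> exact one_least _
  · fin_cases k
    · refine ⟨⟨two_pos, fun t => by simp⟩, fun q h => ?_⟩
      by_contra hq
      obtain rfl : q = 1 := by have := h.1; simp at hq; omega
      have := h.2 0
      norm_num at this
    · exact one_least _
    · exact one_least _

end Pool.Agent.Results.MP_76d2cf_co.Tri
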